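import Mathlib

/-!
# Type III fibres: a line bundle of degree zero on a minimal stratum is torsion there (Lemma T)

`X_b` is the union of the components `V_w`, with double surfaces `D_e` and triple curves `E_p`, all
isogenous to one elliptic curve `E`; the dual complex is a triangulated disc, the family of Calabi-Yau
threefolds has `h^(2,1) = 2` and its limit mixed Hodge structure has only the weights 1, 3, 5.
-/

namespace Pool.Agent.H29.MN

/-- The dual complex of `X_b`: a finite triangulated disc with oriented simplices. -/
structure Disc where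
  /-- the double surfaces `D_e` -/
  Ed : Type
  [fEd : Fintype Ed]
  /-- the triple curves `E_p` -/
  Tr : Type
  [fTr : Fintype Tr]
  /-- the incidence number of the triangle `p` and the edge `e` -/
  bd : Tr → Ed → ℤ
  /-- `e` is an edge of the boundary of the disc -/
  Bdy : Ed → Prop
  /-- the orientation of the triangle `p` compared with the orientation of the disc -/
  o : Tr → ℤ
  o_sq : ∀ p, o p * o p = 1
  /-- an edge which is not in the boundary lies on two triangles, on opposite sides -/
  fund : ∀ e, ¬ Bdy e → ∑ p, o p * bd p e = 0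
  /-- the second cohomology group of the disc vanishes -/
  cob : ∀ p, ∃ ε : Ed → ℤ, (∑ e, ε e * bd p e = 1) ∧ ∀ q, q ≠ p → ∑ e, ε e * bd q e = 0

attribute [instance] Disc.fEd Disc.fTr

/-- The Picard groups of the strata. `A` is `Pic^0(E) ⊗ ℚ`; a point of each `E_p` is fixed, and the
class of a line bundle of degree `d` on `E_p` is the class of its difference with `d` times this
point. -/
structure Strata (K : Disc) where
  /-- the Picard group of `X_b` -/
  P : Type
  [gP : AddCommGroup P]
  /-- the sum of the Picard groups of the components -/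
  PV : Type
  [gPV : AddCommGroup PV]
  /-- the sum of the Picard groups of the double surfaces -/
  PD : Type
  [gPD : AddCommGroup PD]
  A : Type
  [gA : AddCommGroup A]
  tors_free : ∀ (k : ℕ) (a : A), 0 < k → k • a = 0 → a = 0
  /-- the restriction of `x` to `D_e` -/
  nD : P → K.Ed → PD
  /-- the degree of the restriction of `x` to `E_p` -/
  degE : P → K.Tr → ℤ
  /-- the class of the restriction of `x` to `E_p` -/
  clE : P → K.Tr → A
  /-- the coboundary `(y_w)` to `(y_w - y_v on D_e)` -/
  d : PV → PD
  /-- the degree and the class of the component at `E_p` of the coboundary of `(x_e)` -/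
  deg : K.Tr → PD → ℤ
  cl : K.Tr → PD → A
  deg_add : ∀ p x y, deg p (x + y) = deg p x + deg p y
  cl_add : ∀ p x y, cl p (x + y) = cl p x + cl p y
  deg_nD : ∀ p N e, deg p (nD N e) = K.bd p e * degE N p
  cl_nD : ∀ p N e, cl p (nD N e) = K.bd p e • clE N p
  /-- the square of the coboundary is zero -/
  cl_d : ∀ p y, cl p (d y) = 0
  /-- numerically trivial on all double surfaces -/
  Num : PD → Prop
  /-- Clemens-Schmid sequence: the graded piece of weight two of `H^3(X_b)` embeds into the one of the
  limit, which is zero. It is the cohomology of the sequence of the groups `H^2` of the strata. -/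
  exact : ∀ x, (∀ p, deg p x = 0) → ∃ (k : ℕ) (y : PV), 0 < k ∧ Num (k • x - d y)
  /-- `D_e` is rational if `e` is in the boundary, and ruled over `E` with the two triple curves in
  `D_e` as sections if not -/
  pic0 : ∀ x, Num x → ∃ z : K.Ed → A, (∀ e, K.Bdy e → z e = 0) ∧
    ∀ p, cl p x = ∑ e, K.bd p e • z e

attribute [instance] Strata.gP Strata.gPV Strata.gPD Strata.gA

/-- A line bundle on `X_b` of degree zero on `E_p` is torsion on `E_p`. -/
theorem Strata.torsion {K : Disc} (S : Strata K) (N : S.P) (p : K.Tr) (hN : S.degE N p = 0) :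
    S.clE N p = 0 := by
  classical
  obtain ⟨ε, h1, h0⟩ := K.cob p
  -- additivity
  have hdeg0 : ∀ q, S.deg q 0 = 0 := fun q => by
    have := S.deg_add q 0 0
    rw [add_zero] at this
    omega
  have hcl0 : ∀ q, S.cl q 0 = 0 := fun q => by
    have := S.cl_add q 0 0
    rw [add_zero] at this
    exact left_eq_add.1 this
  let dg : K.Tr → S.PD →+ ℤ := fun q =>
    { toFun := S.deg q, map_zero' := hdeg0 q, map_add' := S.deg_add q }
  let c : K.Tr → S.PD →+ S.A := fun q =>
    { toFun := S.cl q, map_zero' := hcl0 q, map_add' := S.cl_add q }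
  have hdg : ∀ q x, S.deg q x = dg q x := fun _ _ => rfl
  have hc : ∀ q x, S.cl q x = c q x := fun _ _ => rfl
  let x : S.PD := ∑ e, ε e • S.nD N e
  have hx : ∀ q, S.cl q x = (∑ e, ε e * K.bd q e) • S.clE N q := by
    intro q
    rw [hc, map_sum, Finset.sum_smul]
    refine Finset.sum_congr rfl fun e _ => ?_
    rw [map_zsmul, ← hc, S.cl_nD, smul_smul]
  have hxd : ∀ q, S.deg q x = 0 := by
    intro q
    have h2 : S.deg q x = (∑ e, ε e * K.bd q e) * S.degE N q := by
      rw [hdg, map_sum, Finset.sum_mul]
      refine Finset.sum_congr rfl fun e _ => ?_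
      rw [map_zsmul, ← hdg, S.deg_nD, smul_eq_mul, mul_assoc]
    rw [h2]
    by_cases hq : q = p
    · rw [hq, hN, mul_zero]
    · rw [h0 q hq, zero_mul]
  obtain ⟨k, y, hk, hnum⟩ := S.exact x hxd
  obtain ⟨z, hz0, hz⟩ := S.pic0 _ hnum
  -- the sum over all triangles
  have hsum : ∑ q, K.o q • S.cl q (k • x - S.d y) = 0 := by
    simp only [hz]
    calc ∑ q, K.o q • ∑ e, K.bd q e • z e = ∑ q, ∑ e, (K.o q * K.bd q e) • z e := by
          refine Finset.sum_congr rfl fun q _ => ?_
          rw [Finset.smul_sum]
          refine Finset.sum_congr rfl fun e _ => ?_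
          rw [smul_smul]
      _ = ∑ e, ∑ q, (K.o q * K.bd q e) • z e := Finset.sum_comm
      _ = ∑ e, (∑ q, K.o q * K.bd q e) • z e := by
          refine Finset.sum_congr rfl fun e _ => ?_
          rw [Finset.sum_smul]
      _ = 0 := by
          refine Finset.sum_eq_zero fun e _ => ?_
          by_cases he : K.Bdy e
          · rw [hz0 e he, smul_zero]
          · rw [K.fund e he, zero_smul]
  have hcomp : ∀ q, S.cl q (k • x - S.d y) = k • ((∑ e, ε e * K.bd q e) • S.clE N q) := by
    intro q
    rw [hc, map_sub, map_nsmul, ← hc, ← hc, S.cl_d, sub_zero, hx]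
  simp only [hcomp] at hsum
  rw [Finset.sum_eq_single p (fun q _ hq => by rw [h0 q hq, zero_smul, smul_zero, smul_zero])
    (fun h => absurd (Finset.mem_univ p) h), h1, one_smul] at hsum
  have h3 : K.o p • (K.o p • (k • S.clE N p)) = 0 := by rw [hsum, smul_zero]
  rw [smul_smul, K.o_sq, one_smul] at h3
  exact S.tors_free k _ hk h3

end Pool.Agent.H29.MN
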