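import Mathlib
import Pool.Agent.H33.MN.Iface

/-!
# Theorems M and N, step (4) for irreducible canonical fibres: a nef class of the geometric generic
fibre is nef on some model

`b` is a prime divisor of the base such that the special fibres `X_a` of the models `a` over the
local ring of `b` are irreducible, with canonical singularities and `K = 0` (all interior divisors
are of this kind). The minimal model program with scaling is published; that it stops when the
coefficient of the ample class tends to zero is proved here. Divisors of the special fibres can be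
contracted and extracted by these flops, so the proof counts the events of each prime divisor and
uses the cube of the class only after the last event.
-/

namespace Pool.Agent.H29.MN

open Pool.Agent.H33.MN

/-- The models over the local ring of a prime divisor of the base with irreducible canonical special
fibres. `W_b` denotes the strict transform of the special fibres in a common resolution `W` of the
models which are compared, with projections `p`, `q`, ... to them. -/
structure Steps {P : Type} [AddCommGroup P] (g : Germ P) (NefG : P → Prop) where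
  /-- the prime divisors of a `Q`-factorial terminalisation `Y` of the special fibre of one model. The special
  fibres of all models are crepant birational, so each prime divisor of each of them is a prime
  divisor of `Y`. -/
  Dv : Type
  /-- `G` is a divisor on the special fibre `X_a` of the model `a` -/
  On : g.Mo → Dv → Prop
  /-- the Picard number of `Y`: the prime divisors of `Y` which are contracted by the map from `Y` to
  `X_a` are linearly independent -/
  rk : ℕ
  off : ∀ a, ∃ S : Finset Dv, S.card ≤ rk ∧ ∀ G, G ∉ S → On a G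
  /-- the coefficient of `G` in the restriction of `p^*x - q^*x` to `W_b`; models are `Q`-factorial -/
  diff : g.Mo → g.Mo → g.Lam → Dv → ℚ
  diff_add : ∀ a b x y G, diff a b (x + y) G = diff a b x G + diff a b y G
  diff_trans : ∀ a b c x G, diff a c x G = diff a b x G + diff b c x G
  /-- the model `a` is regular at the generic point of a prime divisor of the normal variety `X_a`,
  so a Weil divisor is Cartier there and its pull-back has an integral coefficient -/
  diff_int : ∀ a b x G, On a G → On b G → ∃ n : ℤ, diff a b x G = n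
  /-- the intersection number of `G` and the square of a very ample divisor `A` of `Y` -/
  dg : Dv → ℕ
  dg_pos : ∀ G, 0 < dg G
  /-- the intersection number on `W_b` of `p^*x` and the square of the pull-back of `A` -/
  deg : g.Mo → g.Lam → ℚ
  deg_add : ∀ a x y, deg a (x + y) = deg a x + deg a y
  deg_diff : ∀ a b x, ∃ S : Finset Dv, (∀ G, G ∉ S → diff a b x G = 0) ∧
    deg a x - deg b x = ∑ G ∈ S, diff a b x G * dg G
  deg_nef : ∀ a x, g.Nef a x → 0 ≤ deg a x
  nef_nsmul : ∀ a x (k : ℕ), g.Nef a x → g.Nef a (k • x)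
  /-- the cube of the restriction of `x` to `X_a`; it is the cube of the restriction to the generic
  fibre, so it does not depend on `a` -/
  cube : g.Lam → ℚ
  /-- the intersection number `(p^*x)^2.q^*x` on `W_b` -/
  mix1 : g.Mo → g.Mo → g.Lam → ℚ
  /-- the intersection number `p^*x.(q^*x)^2` on `W_b` -/
  mix2 : g.Mo → g.Mo → g.Lam → ℚ
  /-- projection formula: `(p^*x)^2.E = (q^*x)^2.E = 0` for the restriction `E` of `p^*x - q^*x` to
  `W_b` if no component of `E` is a divisor on `X_a` or `X_b` -/
  mix_exc : ∀ a b x, (∀ G, On a G ∨ On b G → diff a b x G = 0) →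
    mix1 a b x = cube x ∧ mix2 a b x = cube x
  /-- `b` is the flop of an extremal contraction of `a` which is small and an isomorphism over the
  generic point of the base; `x` is negative on the contracted curves. -/
  Flop : g.Mo → g.Mo → g.Lam → Prop
  /-- negativity lemma -/
  flop_nonneg : ∀ a b x, Flop a b x → ∀ G, 0 ≤ diff a b x G
  /-- the support of `p^*x - q^*x ≥ 0` is the preimage of the exceptional loci, and its negative is
  ample over the contracted variety on the normalised graph. If none of its components in `W_b` is a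
  divisor on `X_a` or `X_b` then the exceptional loci are curves, and the cube of the restriction to
  `W_b` is positive; it is `3 (mix2 - mix1)`. -/
  flop_small : ∀ a b x, Flop a b x → (∀ G, On a G ∨ On b G → diff a b x G = 0) →
    mix1 a b x < mix2 a b x
  /-- Birkar, Cascini, Hacon, McKernan: the minimal model program for `x` with scaling of an ample
  class `H` over the local ring; `x + d H` is ample on the generic fibre for `d > 0`, contractions of
  divisors do not exist since the special fibre is irreducible. Either it stops with a model on which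
  `x` is nef, or the thresholds `p j / q j` tend to zero. -/
  mmp : ∀ x, NefG (g.rho x) → (∃ a, g.Nef a x) ∨
    ∃ (a : ℕ → g.Mo) (H : g.Lam) (p q : ℕ → ℕ), (∀ j, 0 < p j) ∧ (∀ j, 0 < q j) ∧
      (∀ i j, i ≤ j → p j * q i ≤ p i * q j) ∧ (∀ n, ∃ j, n * p j < q j) ∧
      ∀ j, Flop (a j) (a (j + 1)) x ∧ g.Nef (a j) (q j • x + p j • H) ∧
        ∀ G, diff (a j) (a (j + 1)) (q j • x + p j • H) G = 0

/-- numbers which increase by at least one -/
private theorem st_inj (f : ℕ → ℚ) (A : Finset ℕ)
    (hA : ∀ i ∈ A, ∀ j ∈ A, i < j → f i + 1 ≤ f j) (lo hi : ℤ)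
    (h1 : ∀ i ∈ A, lo ≤ ⌊f i⌋ ∧ ⌊f i⌋ ≤ hi) (hne : A.Nonempty) : (A.card : ℤ) ≤ hi + 1 - lo := by
  have h2 : ∀ i ∈ A, ∀ j ∈ A, i < j → ⌊f i⌋ < ⌊f j⌋ := by
    intro i hi' j hj hij
    have := Int.floor_le_floor (hA i hi' j hj hij)
    rw [Int.floor_add_one] at this
    omega
  have h3 : A.card ≤ (Finset.Icc lo hi).card := by
    apply Finset.card_le_card_of_injOn (fun i => ⌊f i⌋)
    · intro i hi'
      exact Finset.mem_coe.2 (Finset.mem_Icc.2 (h1 i hi'))
    · intro i hi' j hj hij
      rcases lt_trichotomy i j with h | h | h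
      · exact absurd hij (h2 i hi' j hj h).ne
      · exact h
      · exact absurd hij (h2 j hj i hi' h).ne'
  rw [Int.card_Icc] at h3
  obtain ⟨i, hi'⟩ := hne
  have := h1 i hi'
  omega

private theorem st_one (s : ℕ → ℚ) (i j : ℕ) (hT : ∃ n : ℤ, s j - s i = n) (h : s i < s j) :
    s i + 1 ≤ s j := by
  obtain ⟨n, hn⟩ := hT
  have h1 : (0 : ℚ) < n := by rw [← hn]; linarith
  have h2 : (1 : ℤ) ≤ n := by exact_mod_cast h1
  have h3 : (1 : ℚ) ≤ n := by exact_mod_cast h2
  linarith

/-- arrivals and drops on divisors which stay -/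
private theorem st_arr (s : ℕ → ℚ) (hs : Monotone s) (h0 : s 0 = 0) (T : ℕ → Prop)
    (hT : ∀ i j, T i → T j → ∃ n : ℤ, s j - s i = n) (k : ℕ) [DecidablePred T]
    [DecidablePred fun j => T (j + 1) ∧ s j < s (j + 1)] :
    (((Finset.range k).filter fun j => T (j + 1) ∧ s j < s (j + 1)).card : ℚ) ≤
      s k + if T 0 then 0 else 1 := by
  have hk : 0 ≤ s k := h0 ▸ hs (Nat.zero_le k)
  rcases ((Finset.range k).filter fun j => T (j + 1) ∧ s j < s (j + 1)).eq_empty_or_nonempty
    with h | h
  · rw [h]
    split_ifs <;> simp <;> linarith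
  · have key := st_inj (fun j => s (j + 1)) _ (by
      intro i hi j hj hij
      rw [Finset.mem_filter] at hi hj
      have h1 : s (i + 1) ≤ s j := hs (by omega)
      exact st_one s (i + 1) (j + 1) (hT _ _ hi.2.1 hj.2.1) (lt_of_le_of_lt h1 hj.2.2))
      (if T 0 then 1 else 0) ⌊s k⌋ (by
      intro i hi
      rw [Finset.mem_filter, Finset.mem_range] at hi
      refine ⟨?_, Int.floor_le_floor (hs (by omega))⟩
      have h2 : 0 ≤ s i := h0 ▸ hs (Nat.zero_le i)
      split_ifs with h3
      · have h4 := st_one s 0 (i + 1) (hT _ _ h3 hi.2.1) (by rw [h0]; linarith [hi.2.2])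
        rw [h0] at h4
        exact Int.le_floor.2 (by push_cast; linarith)
      · exact Int.le_floor.2 (by push_cast; linarith [hi.2.2])) h
    have key' : ((((Finset.range k).filter fun j => T (j + 1) ∧ s j < s (j + 1)).card : ℤ) : ℚ) ≤
        ((⌊s k⌋ + 1 - (if T 0 then 1 else 0) : ℤ) : ℚ) := by exact_mod_cast key
    have h5 := Int.floor_le (s k)
    push_cast at key'
    refine key'.trans ?_
    split_ifs <;> linarith

/-- departures and drops on divisors which stay -/
private theorem st_dep (s : ℕ → ℚ) (hs : Monotone s) (h0 : s 0 = 0) (T : ℕ → Prop)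
    (hT : ∀ i j, T i → T j → ∃ n : ℤ, s j - s i = n) (k : ℕ) [DecidablePred T]
    [DecidablePred fun j => T j ∧ s j < s (j + 1)] :
    (((Finset.range k).filter fun j => T j ∧ s j < s (j + 1)).card : ℚ) ≤
      s k + if T k then 0 else 1 := by
  have hk : 0 ≤ s k := h0 ▸ hs (Nat.zero_le k)
  rcases ((Finset.range k).filter fun j => T j ∧ s j < s (j + 1)).eq_empty_or_nonempty
    with h | h
  · rw [h]
    split_ifs <;> simp <;> linarith
  · have key := st_inj s _ (by
      intro i hi j hj hij
      rw [Finset.mem_filter] at hi hj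
      have h1 : s (i + 1) ≤ s j := hs (by omega)
      exact st_one s i j (hT _ _ hi.2.1 hj.2.1) (lt_of_lt_of_le hi.2.2 h1))
      0 (if T k then ⌊s k⌋ - 1 else ⌊s k⌋) (by
      intro i hi
      rw [Finset.mem_filter, Finset.mem_range] at hi
      have h2 : 0 ≤ s i := h0 ▸ hs (Nat.zero_le i)
      refine ⟨Int.le_floor.2 (by push_cast; linarith), ?_⟩
      split_ifs with h3
      · have h4 := st_one s i k (hT _ _ hi.2.1 h3) (lt_of_lt_of_le hi.2.2 (hs (by omega)))
        have h5 := Int.floor_le_floor h4
        rw [Int.floor_add_one] at h5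
        omega
      · exact Int.floor_le_floor (hs (by omega))) h
    have key' : ((((Finset.range k).filter fun j => T j ∧ s j < s (j + 1)).card : ℤ) : ℚ) ≤
        (((if T k then ⌊s k⌋ - 1 else ⌊s k⌋) + 1 - 0 : ℤ) : ℚ) := by exact_mod_cast key
    have h5 := Int.floor_le (s k)
    push_cast at key'
    refine key'.trans ?_
    split_ifs <;> linarith

/-- A class which is nef on the geometric generic fibre is nef on some model. -/
theorem Steps.exists_nef {P : Type} [AddCommGroup P] {g : Germ P} {NefG : P → Prop}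
    (F : Steps g NefG) (x : g.Lam) (hx : NefG (g.rho x)) : ∃ a, g.Nef a x := by
  classical
  rcases F.mmp x hx with h | ⟨a, H, p, q, hp, hq, hanti, hlim, hstep⟩
  · exact h
  exfalso
  -- thresholds
  obtain ⟨d, hd⟩ : ∃ d : ℕ → ℚ, ∀ j, d j = (p j : ℚ) / q j := ⟨fun j => p j / q j, fun _ => rfl⟩
  have hpQ : ∀ j, (0 : ℚ) < p j := fun j => by exact_mod_cast hp j
  have hqQ : ∀ j, (0 : ℚ) < q j := fun j => by exact_mod_cast hq j
  have hdpos : ∀ j, 0 < d j := fun j => by rw [hd]; exact div_pos (hpQ j) (hqQ j)
  have hdanti : ∀ i j, i ≤ j → d j ≤ d i := fun i j hij => by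
    rw [hd, hd, div_le_div_iff₀ (hqQ j) (hqQ i)]
    exact_mod_cast hanti i j hij
  have hdlim : ∀ ε : ℚ, 0 < ε → ∃ j, d j < ε := fun ε hε => by
    obtain ⟨n, hn⟩ := exists_nat_gt (1 / ε)
    obtain ⟨j, hj⟩ := hlim n
    refine ⟨j, ?_⟩
    rw [hd, div_lt_iff₀ (hqQ j)]
    have h1 : (n : ℚ) * p j < q j := by exact_mod_cast hj
    rw [div_lt_iff₀ hε] at hn
    have h2 : (p j : ℚ) * 1 < p j * (n * ε) := mul_lt_mul_of_pos_left hn (hpQ j)
    have h3 : (n : ℚ) * p j * ε < q j * ε := mul_lt_mul_of_pos_right h1 hε
    linarith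
  -- degrees
  have hdeg0 : ∀ b, F.deg b 0 = 0 := fun b => by
    have := F.deg_add b 0 0
    rw [add_zero] at this
    linarith
  have hdegn : ∀ b (n : ℕ) y, F.deg b (n • y) = n * F.deg b y := by
    intro b n y
    induction n with
    | zero => simp [hdeg0]
    | succ n ih =>
      rw [add_smul, one_smul, F.deg_add, ih]
      push_cast
      ring
  obtain ⟨e, he⟩ : ∃ e : ℕ → ℚ, ∀ j, e j = F.deg (a j) x - F.deg (a (j + 1)) x :=
    ⟨_, fun _ => rfl⟩
  obtain ⟨f, hf⟩ : ∃ f : ℕ → ℚ, ∀ j, f j = F.deg (a j) H - F.deg (a (j + 1)) H :=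
    ⟨_, fun _ => rfl⟩
  have htele : ∀ m, ∑ i ∈ Finset.range m, e i = F.deg (a 0) x - F.deg (a m) x := by
    intro m
    induction m with
    | zero => simp
    | succ m ih => rw [Finset.sum_range_succ, ih, he]; ring
  have htelf : ∀ m, ∑ i ∈ Finset.range m, f i = F.deg (a 0) H - F.deg (a m) H := by
    intro m
    induction m with
    | zero => simp
    | succ m ih => rw [Finset.sum_range_succ, ih, hf]; ring
  have hE0 : ∀ j G, 0 ≤ F.diff (a j) (a (j + 1)) x G := fun j G =>
    F.flop_nonneg _ _ _ (hstep j).1 G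
  have he0 : ∀ j, 0 ≤ e j := fun j => by
    obtain ⟨S, -, hS⟩ := F.deg_diff (a j) (a (j + 1)) x
    rw [he, hS]
    exact Finset.sum_nonneg fun G _ => mul_nonneg (hE0 j G) (by positivity)
  have hef : ∀ j, e j + d j * f j = 0 := by
    intro j
    obtain ⟨S, -, hS⟩ := F.deg_diff (a j) (a (j + 1)) (q j • x + p j • H)
    have h1 : ∑ G ∈ S, F.diff (a j) (a (j + 1)) (q j • x + p j • H) G * (F.dg G : ℚ) = 0 :=
      Finset.sum_eq_zero fun G _ => by rw [(hstep j).2.2 G, zero_mul]
    rw [h1, F.deg_add, F.deg_add, hdegn, hdegn, hdegn, hdegn] at hS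
    have h2 : (q j : ℚ) * (e j + d j * f j) = 0 := by
      rw [hd, he, hf]
      have := (hqQ j).ne'
      field_simp
      linarith
    rcases mul_eq_zero.1 h2 with h | h
    · exact absurd h (hqQ j).ne'
    · exact h
  have hps : ∀ m, ∑ i ∈ Finset.range m, (e i + d m * f i) ≤
      F.deg (a 0) x + d m * F.deg (a 0) H := by
    intro m
    have h1 := F.deg_nef _ _ (hstep m).2.1
    rw [F.deg_add, hdegn, hdegn] at h1
    have h2 : (q m : ℚ) * (F.deg (a m) x + d m * F.deg (a m) H) =
        q m * F.deg (a m) x + p m * F.deg (a m) H := by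
      rw [hd]
      have := (hqQ m).ne'
      field_simp
    rw [← h2] at h1
    have h3 := nonneg_of_mul_nonneg_right h1 (hqQ m)
    rw [Finset.sum_add_distrib, ← Finset.mul_sum, htele, htelf]
    linarith
  have hsum : ∀ k, ∑ i ∈ Finset.range k, e i ≤ F.deg (a 0) x := by
    intro k
    by_contra hcon
    rw [not_le] at hcon
    obtain ⟨C, hC⟩ : ∃ C : ℚ, C = F.deg (a 0) H - ∑ i ∈ Finset.range k, f i := ⟨_, rfl⟩
    obtain ⟨j, hj⟩ := hdlim ((∑ i ∈ Finset.range k, e i - F.deg (a 0) x) / (|C| + 1))
      (div_pos (by linarith) (by positivity))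
    rw [lt_div_iff₀ (by positivity)] at hj
    have h1 := hps (max j k)
    have hdm := hdanti j (max j k) (le_max_left _ _)
    have h2 : ∑ i ∈ Finset.range k, (e i + d (max j k) * f i) ≤
        ∑ i ∈ Finset.range (max j k), (e i + d (max j k) * f i) := by
      apply Finset.sum_le_sum_of_subset_of_nonneg
      · exact Finset.range_subset_range.2 (le_max_right _ _)
      · intro i hi _
        have h3 := hdanti i (max j k) (Finset.mem_range.1 hi).le
        have h4 := hef i
        have h5 := he0 i
        have h6 := hdpos i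
        have h7 : 0 ≤ d i * (e i + d (max j k) * f i) := by
          have : d i * (e i + d (max j k) * f i) = (d i - d (max j k)) * e i +
            d (max j k) * (e i + d i * f i) := by ring
          rw [this, h4, mul_zero, add_zero]
          exact mul_nonneg (by linarith) h5
        exact nonneg_of_mul_nonneg_right h7 h6
    rw [Finset.sum_add_distrib, ← Finset.mul_sum] at h2
    have h8 : ∑ i ∈ Finset.range k, e i - F.deg (a 0) x ≤ d (max j k) * C := by
      rw [hC]
      linarith
    have h9 : d (max j k) * C ≤ d j * |C| :=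
      (mul_le_mul_of_nonneg_left (le_abs_self C) (hdpos _).le).trans
        (mul_le_mul_of_nonneg_right hdm (abs_nonneg C))
    have h10 := hdpos j
    linarith
  -- events
  have hev : ∀ j, ∃ G, (F.On (a j) G ∨ F.On (a (j + 1)) G) ∧
      0 < F.diff (a j) (a (j + 1)) x G := by
    intro j
    by_contra hcon
    have h1 : ∀ G, F.On (a j) G ∨ F.On (a (j + 1)) G → F.diff (a j) (a (j + 1)) x G = 0 := by
      intro G hG
      by_contra h
      exact hcon ⟨G, hG, lt_of_le_of_ne (hE0 j G) (Ne.symm h)⟩
    have h2 := F.flop_small _ _ _ (hstep j).1 h1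
    obtain ⟨h3, h4⟩ := F.mix_exc _ _ _ h1
    rw [h3, h4] at h2
    exact lt_irrefl _ h2
  -- one divisor
  have hdself : ∀ b G, F.diff b b x G = 0 := fun b G => by
    have := F.diff_trans b b b x G
    linarith
  let s : F.Dv → ℕ → ℚ := fun G j => F.diff (a 0) (a j) x G
  have hs0 : ∀ G, s G 0 = 0 := fun G => hdself _ _
  have hsS : ∀ G j, s G (j + 1) = s G j + F.diff (a j) (a (j + 1)) x G := fun G j =>
    F.diff_trans (a 0) (a j) (a (j + 1)) x G
  have hsm : ∀ G, Monotone (s G) := fun G => monotone_nat_of_le_succ fun j => by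
    rw [hsS]
    linarith [hE0 j G]
  have hsT : ∀ G i j, F.On (a i) G → F.On (a j) G → ∃ n : ℤ, s G j - s G i = n := by
    intro G i j hi hj
    obtain ⟨n, hn⟩ := F.diff_int (a i) (a j) x G hi hj
    refine ⟨n, ?_⟩
    simp only [s]
    rw [F.diff_trans (a 0) (a i) (a j), hn]
    ring
  obtain ⟨k, hk⟩ := exists_nat_gt (2 * F.deg (a 0) x + 2 * F.rk)
  choose S hS using fun j => F.deg_diff (a j) (a (j + 1)) x
  let U : Finset F.Dv := (Finset.range k).biUnion S
  have hcov : Finset.range k ⊆ U.biUnion fun G =>
      ((Finset.range k).filter fun j => F.On (a (j + 1)) G ∧ s G j < s G (j + 1)) ∪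
      ((Finset.range k).filter fun j => F.On (a j) G ∧ s G j < s G (j + 1)) := by
    intro j hj
    obtain ⟨G, hG, hpos⟩ := hev j
    rw [Finset.mem_biUnion]
    refine ⟨G, Finset.mem_biUnion.2 ⟨j, hj, ?_⟩, ?_⟩
    · by_contra h
      exact hpos.ne' ((hS j).1 G h)
    have hlt : s G j < s G (j + 1) := by rw [hsS]; linarith
    rw [Finset.mem_union, Finset.mem_filter, Finset.mem_filter]
    rcases hG with h | h
    · exact Or.inr ⟨hj, h, hlt⟩
    · exact Or.inl ⟨hj, h, hlt⟩
  have hcard : (k : ℚ) ≤ ∑ G ∈ U, ((s G k + if F.On (a 0) G then 0 else 1) +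
      (s G k + if F.On (a k) G then 0 else 1)) := by
    have h1 := (Finset.card_le_card hcov).trans Finset.card_biUnion_le
    rw [Finset.card_range] at h1
    have h2 : (k : ℚ) ≤ ∑ G ∈ U, (((((Finset.range k).filter fun j =>
      F.On (a (j + 1)) G ∧ s G j < s G (j + 1)) ∪
      ((Finset.range k).filter fun j => F.On (a j) G ∧ s G j < s G (j + 1))).card : ℕ) : ℚ) := by
      exact_mod_cast h1
    refine h2.trans (Finset.sum_le_sum fun G _ => ?_)
    have h3 := Finset.card_union_le
      ((Finset.range k).filter fun j => F.On (a (j + 1)) G ∧ s G j < s G (j + 1))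
      ((Finset.range k).filter fun j => F.On (a j) G ∧ s G j < s G (j + 1))
    have h4 := st_arr (s G) (hsm G) (hs0 G) (fun j => F.On (a j) G) (hsT G) k
    have h5 := st_dep (s G) (hsm G) (hs0 G) (fun j => F.On (a j) G) (hsT G) k
    have h3' : (((((Finset.range k).filter fun j =>
      F.On (a (j + 1)) G ∧ s G j < s G (j + 1)) ∪
      ((Finset.range k).filter fun j => F.On (a j) G ∧ s G j < s G (j + 1))).card : ℕ) : ℚ) ≤
      (((Finset.range k).filter fun j => F.On (a (j + 1)) G ∧ s G j < s G (j + 1)).card : ℚ) +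
      (((Finset.range k).filter fun j => F.On (a j) G ∧ s G j < s G (j + 1)).card : ℚ) := by
      exact_mod_cast h3
    exact h3'.trans (add_le_add h4 h5)
  have hoff : ∀ b, ∑ G ∈ U, (if F.On b G then (0 : ℚ) else 1) ≤ F.rk := by
    intro b
    obtain ⟨S, hS, hSo⟩ := F.off b
    have h1 : ∑ G ∈ U, (if F.On b G then (0 : ℚ) else 1) =
        ((U.filter fun G => ¬ F.On b G).card : ℚ) := by
      rw [Finset.card_filter]
      push_cast
      apply Finset.sum_congr rfl
      intro G _
      by_cases h : F.On b G <;> simp [h]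
    rw [h1]
    have h2 : (U.filter fun G => ¬ F.On b G) ⊆ S := by
      intro G hG
      by_contra h
      exact (Finset.mem_filter.1 hG).2 (hSo G h)
    exact_mod_cast (Finset.card_le_card h2).trans hS
  have hdrop : ∑ G ∈ U, s G k ≤ F.deg (a 0) x := by
    refine le_trans ?_ (hsum k)
    have h1 : ∀ j ∈ Finset.range k, e j = ∑ G ∈ U, F.diff (a j) (a (j + 1)) x G * F.dg G := by
      intro j hj
      rw [he, (hS j).2]
      apply Finset.sum_subset (fun G hG => Finset.mem_biUnion.2 ⟨j, hj, hG⟩)
      intro G _ hG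
      rw [(hS j).1 G hG, zero_mul]
    rw [Finset.sum_congr rfl h1, Finset.sum_comm]
    apply Finset.sum_le_sum
    intro G _
    have h2 : ∀ m, s G m = ∑ j ∈ Finset.range m, F.diff (a j) (a (j + 1)) x G := by
      intro m
      induction m with
      | zero => rw [hs0]; simp
      | succ m ih => rw [Finset.sum_range_succ, ← ih, hsS]
    rw [h2]
    apply Finset.sum_le_sum
    intro j _
    have h3 : (1 : ℚ) ≤ F.dg G := by exact_mod_cast F.dg_pos G
    exact le_mul_of_one_le_right (hE0 j G) h3
  rw [Finset.sum_add_distrib, Finset.sum_add_distrib, Finset.sum_add_distrib] at hcard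
  have h1 := hoff (a 0)
  have h2 := hoff (a k)
  linarith

/-- The nef model over `b`, with a Cartier multiple. -/
theorem Steps.exists_cartier {P : Type} [AddCommGroup P] {NefG : P → Prop} {hG : ℕ → P → ℕ}
    (M : Moduli P NefG hG) (b : M.B) (F : Steps (M.germ b) NefG) (L : P) (hL : NefG L) :
    ∃ (mu : (M.germ b).Mo) (k : ℕ) (x : (M.germ b).Lam), 0 < k ∧ (M.germ b).rho x = k • L ∧
      (M.germ b).Nef mu x ∧ ∀ j : ℕ, 0 < j → (M.germ b).Car mu (j • x) := by
  obtain ⟨mu, hmu⟩ := F.exists_nef (M.lift b L) (by rw [M.rho_lift]; exact hL)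
  obtain ⟨k, hk, hj⟩ := M.qfac b mu (M.lift b L)
  refine ⟨mu, k, k • M.lift b L, hk, ?_, F.nef_nsmul _ _ _ hmu, fun j _ => hj j⟩
  rw [map_nsmul, M.rho_lift]

end Pool.Agent.H29.MN
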